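import Mathlib

set_option autoImplicit false

/-! Encoding of a unit-cost automaton into languages `P B ^ m Q`. -/

namespace Pool.Agent.H.MP_dd548e_lc

open List Sum

structure Aut (N S : Type) where
  pos : N → ℕ
  inj : Function.Injective pos
  K : ℕ
  hK : ∀ a, 3 * pos a + 5 ≤ K
  E : N → Option S → N → Prop
  eps : ∀ a b, E a none b → pos a < pos b
  T : N → Prop
  sh : N → N
  t0 : N
  I : N → Prop
  F : N → Prop
  T0 : T t0
  TE : ∀ a o b, T a → E a o b → T b ∧ E (sh a) o (sh b)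
  shT : ∀ a, ¬ T (sh a)
  shlt : ∀ a b, T b → pos (sh a) < pos b

variable {N S : Type} (A : Aut N S)

inductive URun : N → List S → ℕ → N → Prop
  | refl (a) : URun a [] 0 a
  | step {a x m b o c} : URun a x m b → A.E b o c → URun a (x ++ o.toList) (m + 1) c

def seg (i j : ℕ) : List (ℕ ⊕ S) := (range' i (j - i)).map inl

def P (a : N) : ℕ := 3 * A.pos a + 3

def fac (i : ℕ) (o : Option S) (j : ℕ) : List (ℕ ⊕ S) :=
  match o with
  | none => seg i j
  | some x => seg i A.K ++ inr x :: seg 0 j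

def V (x : List S) (i : ℕ) : List (ℕ ⊕ S) := x.flatMap (fun y => seg 0 A.K ++ [inr y]) ++ seg 0 i

theorem seg_append {i j k : ℕ} (h1 : i ≤ j) (h2 : j ≤ k) :
    (seg i j : List (ℕ ⊕ S)) ++ seg j k = seg i k := by
  obtain ⟨a, rfl⟩ := Nat.exists_eq_add_of_le h1
  obtain ⟨b, rfl⟩ := Nat.exists_eq_add_of_le h2
  have e : i + a + b - i = a + b := by omega
  simp only [seg, ← map_append, Nat.add_sub_cancel_left, range'_append_1, e]

theorem seg_cons {i j : ℕ} (h : i < j) : (seg i j : List (ℕ ⊕ S)) = inl i :: seg (i + 1) j := by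
  obtain ⟨a, rfl⟩ := Nat.exists_eq_add_of_lt h
  have e1 : i + a + 1 - i = a + 1 := by omega
  have e2 : i + a + 1 - (i + 1) = a := by omega
  simp only [seg, e1, e2, range'_succ, map_cons]

theorem V_fac (x : List S) {i j : ℕ} (o : Option S) (h1 : i ≤ A.K) (h2 : o = none → i ≤ j) :
    V A x i ++ fac A i o j = V A (x ++ o.toList) j := by
  cases o with
  | none => simp only [V, fac, append_assoc, seg_append (Nat.zero_le _) (h2 rfl)]; simp
  | some y =>
    simp only [V, fac, append_assoc]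
    rw [← append_assoc (seg 0 i), seg_append (Nat.zero_le _) h1]; simp

theorem V_succ (x : List S) (i : ℕ) : V A x i ++ [inl i] = V A x (i + 1) := by
  simp only [V, append_assoc, ← seg_append (Nat.zero_le i) (Nat.le_succ i)]
  simp [seg]

theorem V_cons (y : S) (x i) : V A (y :: x) i = seg 0 A.K ++ inr y :: V A x i := by simp [V]

theorem V_next {x : List S} {i : ℕ} (hi : i < A.K) {l r} : ∀ {x' : List S},
    V A x' i ++ l :: r <+: V A x A.K → l = inl i ∧ x' <+: x := by
  induction x with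
  | nil =>
    rintro (_ | ⟨y, x'⟩) h
    · simp only [V, flatMap_nil, nil_append] at h
      rw [← seg_append (Nat.zero_le i) hi.le, seg_cons hi, prefix_append_right_inj,
        cons_prefix_cons] at h
      exact ⟨h.1, nil_prefix⟩
    · have := h.length_le
      simp [V, seg] at this
  | cons z x ih =>
    rintro (_ | ⟨y, x'⟩) h
    · rw [V_cons, ← seg_append (Nat.zero_le i) hi.le, seg_cons hi] at h
      simp only [V, flatMap_nil, nil_append, append_assoc, prefix_append_right_inj, cons_append,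
        cons_prefix_cons] at h
      exact ⟨h.1, nil_prefix⟩
    · simp only [V_cons, append_assoc, prefix_append_right_inj, cons_append, cons_prefix_cons,
        inr.injEq] at h
      exact ⟨(ih h.2).1, cons_prefix_cons.2 ⟨h.1, (ih h.2).2⟩⟩

theorem V_inj {x x' : List S} (h : V A x A.K = V A x' A.K) : x = x' := by
  have : ∀ x : List S, (V A x A.K).filterMap getRight? = x := by
    intro x
    induction x with
    | nil => simp [V, seg]
    | cons y x ih => rw [V_cons]; simp [seg, ih]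
  rw [← this x, h, this]

def U (l : ℕ ⊕ S) : Prop := ∀ i, l = inl i → i < A.K

def C0 (w : List (ℕ ⊕ S)) : Prop := ∃ a o b, A.E a o b ∧ (w = fac A (P A a) o (P A b) ∨ A.T a ∧
  (w = fac A (P A (A.sh a)) o (P A b - 1) ∨
    ∃ l, U A l ∧ l ≠ inl (P A b) ∧ w = fac A (P A (A.sh a)) o (P A b) ++ [l]))

def Q0 (w : List (ℕ ⊕ S)) : Prop := ∃ f, A.F f ∧ w = seg (P A f) A.K

def Cl (C : List (ℕ ⊕ S) → Prop) (w : List (ℕ ⊕ S)) : Prop :=
  ∃ v, C v ∧ (w = v ∨ w = v.tail ∨ ∃ b, w = inl (P A b - 1) :: v.tail)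

def B (w : List (ℕ ⊕ S)) : Prop := w = [] ∨ Cl A (C0 A) w

def P2 (Bad : List S → Prop) (w : List (ℕ ⊕ S)) : Prop :=
  (∃ a, (A.I a ∨ a = A.sh A.t0) ∧ w = V A [] (P A a)) ∨ w = V A [] (P A A.t0 - 1) ∨
    (∃ l, U A l ∧ l ≠ inl (P A A.t0) ∧ w = V A [] (P A A.t0) ++ [l]) ∨
    ∃ x, Bad x ∧ w = V A x (P A A.t0)

inductive Der (R : List (ℕ ⊕ S) → Prop) : ℕ → List (ℕ ⊕ S) → Prop
  | base {w} : R w → Der R 0 w
  | step {m w f} : Der R m w → B A f → Der R (m + 1) (w ++ f)

def Lang (R : List (ℕ ⊕ S) → Prop) (m : ℕ) (z : List (ℕ ⊕ S)) : Prop :=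
  ∃ w k, Der A R m w ∧ Cl A (Q0 A) k ∧ z = w ++ k

def Hd (a : N) (w : List (ℕ ⊕ S)) : Prop := ∃ r, w = inl (P A a) :: inl (P A a + 1) :: r

theorem P_lt (a : N) : P A a + 1 < A.K := by have := A.hK a; unfold P; omega

theorem P_inj {a b : N} (h : P A a = P A b) : a = b := A.inj (by unfold P at h; omega)

theorem hd_seg (a : N) {j} (h : P A a + 1 < j) (r) : Hd A a (seg (P A a) j ++ r) :=
  ⟨_, by rw [seg_cons (by omega), seg_cons h]; rfl⟩

theorem hd_fac (a : N) (o j) (h : o = none → P A a + 1 < j) (r) :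
    Hd A a (fac A (P A a) o j ++ r) := by
  cases o with
  | none => exact hd_seg A a (h rfl) r
  | some y => simpa [fac] using hd_seg A a (P_lt A a) (inr y :: seg 0 j ++ r)

theorem C0.cases {w} (h : C0 A w) : ∃ a o b, A.E a o b ∧
    (Hd A a w ∧ w = fac A (P A a) o (P A b) ∨ A.T a ∧ Hd A (A.sh a) w ∧
    (w = fac A (P A (A.sh a)) o (P A b - 1) ∨
      ∃ l, U A l ∧ l ≠ inl (P A b) ∧ w = fac A (P A (A.sh a)) o (P A b) ++ [l])) := by
  obtain ⟨a, o, b, h1, h2⟩ := h
  refine ⟨a, o, b, h1, h2.imp (fun h => ⟨?_, h⟩) fun h => ⟨h.1, ?_, h.2⟩⟩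
  · rw [h, ← append_nil (fac ..)]
    refine hd_fac A a o _ (fun e => ?_) _
    have := A.eps a b (e ▸ h1); unfold P; omega
  · have := A.shlt a b (A.TE a o b h.1 h1).1
    rcases h.2 with rfl | ⟨l, -, -, rfl⟩
    · rw [← append_nil (fac ..)]
      exact hd_fac A _ o _ (fun _ => by unfold P; omega) _
    · exact hd_fac A _ o _ (fun _ => by unfold P; omega) _

theorem C0.hd {w} (h : C0 A w) : ∃ a, Hd A a w := by
  obtain ⟨a, o, b, -, h | h⟩ := h.cases
  exacts [⟨_, h.1⟩, ⟨_, h.2.1⟩]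

theorem Q0.hd {w} (h : Q0 A w) : ∃ a, Hd A a w := by
  obtain ⟨f, -, rfl⟩ := h
  exact ⟨f, by simpa using hd_seg A f (P_lt A f) []⟩

theorem Der.pad {R m w} (h : Der A R m w) {m'} (hm : m ≤ m') : Der A R m' w := by
  induction hm with
  | refl => exact h
  | step _ ih => simpa using ih.step (Or.inl rfl)

theorem Der.mono {R R' m w} (h : Der A R m w) (hR : ∀ w, R w → R' w) : Der A R' m w := by
  induction h with
  | base h => exact .base (hR _ h)
  | step _ hf ih => exact ih.step hf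

theorem b_edge {a o b} (h : A.E a o b) : B A (fac A (P A a) o (P A b)) :=
  Or.inr ⟨_, ⟨a, o, b, h, Or.inl rfl⟩, Or.inl rfl⟩

theorem V_edge {a o b} (h : A.E a o b) (x) :
    V A x (P A a) ++ fac A (P A a) o (P A b) = V A (x ++ o.toList) (P A b) :=
  V_fac A x o (by have := P_lt A a; omega) fun e => by
    have := A.eps a b (e ▸ h); unfold P; omega

theorem Der.run {R m x₀ a} (h : Der A R m (V A x₀ (P A a))) {x k b} (r : URun A a x k b) :
    Der A R (m + k) (V A (x₀ ++ x) (P A b)) := by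
  induction r with
  | refl => simpa using h
  | step _ e ih =>
    have := ih.step (b_edge A e)
    rwa [V_edge A e, append_assoc] at this

/-- resynchronisation after a junction at which the two cuts do not match -/
theorem garbage {C : List (ℕ ⊕ S) → Prop} (hC : ∀ w, C w → ∃ a, Hd A a w) {f} (hf : Cl A C f)
    (b : N) : (C f ∧ Hd A b f) ∨ (∃ l f', U A l ∧ l ≠ inl (P A b) ∧ f = l :: f' ∧ Cl A C f') ∨
      Cl A C (inl (P A b - 1) :: f) := by
  obtain ⟨v, hv, rfl | rfl | ⟨b', rfl⟩⟩ := hf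
  · obtain ⟨a, r, rfl⟩ := hC _ hv
    by_cases h : a = b
    · exact Or.inl ⟨hv, r, by rw [h]⟩
    · refine Or.inr (Or.inl ⟨_, _, ?_, fun e => h (P_inj A (inl.inj e)), rfl,
        _, hv, Or.inr (Or.inl rfl)⟩)
      rintro _ ⟨⟩
      have := P_lt A a; omega
  · exact Or.inr (Or.inr ⟨v, hv, Or.inr (Or.inr ⟨b, rfl⟩)⟩)
  · refine Or.inr (Or.inl ⟨_, _, ?_, fun e => ?_, rfl, v, hv, Or.inr (Or.inl rfl)⟩)
    · rintro _ ⟨⟩
      have := P_lt A b'; omega
    · have := inl.inj e
      unfold P at this; omega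

theorem Hd.eq {a b w} (h : Hd A a w) (h' : Hd A b w) : a = b := by
  obtain ⟨r, rfl⟩ := h
  obtain ⟨r', h⟩ := h'
  exact P_inj A (by simpa using (cons.inj h).1)

theorem complete (Bad : List S → Prop) (m : ℕ)
    (H : ∀ x k f, URun A A.t0 x k f → A.F f → (∃ a f' k', A.I a ∧ A.F f' ∧ k' ≤ k ∧
      URun A a x k' f') ∨ ∃ x₀ x₁ k' f', Bad x₀ ∧ x = x₀ ++ x₁ ∧ A.F f' ∧ k' ≤ k ∧
        URun A A.t0 x₁ k' f') (z) (h : Lang A (· = V A [] (P A A.t0)) m z) :
    Lang A (P2 A Bad) m z := by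
  obtain ⟨w, k, h1, h2, rfl⟩ := h
  have key : Der A (P2 A Bad) m w ∨ ∃ x a m', A.T a ∧ URun A A.t0 x m' a ∧ m' ≤ m ∧
      w = V A x (P A a) ∧ Der A (P2 A Bad) m (V A x (P A (A.sh a))) ∧
      (∀ l, U A l → l ≠ inl (P A a) → Der A (P2 A Bad) m (w ++ [l])) ∧
      Der A (P2 A Bad) m (V A x (P A a - 1)) := by
    induction h1 with
    | base h =>
      exact Or.inr ⟨[], A.t0, 0, A.T0, .refl _, le_rfl, h, .base (Or.inl ⟨_, Or.inr rfl, rfl⟩),
        fun l h1 h2 => .base (Or.inr (Or.inr (Or.inl ⟨l, h1, h2, by rw [h]⟩))),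
        .base (Or.inr (Or.inl rfl))⟩
    | @step m w f _ hf ih =>
      rcases ih with ih | ⟨x, a, m', a1, a2, a3, rfl, a5, a6, a7⟩
      · exact Or.inl (ih.step hf)
      rcases hf with rfl | hf
      · exact Or.inr ⟨x, a, m', a1, a2, by omega, by simp, a5.pad A (by omega),
          fun l h1 h2 => by simpa using (a6 l h1 h2).pad A (by omega), a7.pad A (by omega)⟩
      rcases garbage A (fun _ => C0.hd A) hf a with ⟨h1, h2⟩ | ⟨l, f', h1, h2, rfl, h3⟩ | h1
      · obtain ⟨a', o, b, e, ⟨h3, rfl⟩ | ⟨-, h3, -⟩⟩ := h1.cases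
        · obtain rfl := h2.eq A h3
          obtain ⟨hb, e'⟩ := A.TE a o b a1 e
          have hs := A.shlt a b hb
          have hk := P_lt A (A.sh a)
          refine Or.inr ⟨_, b, m' + 1, hb, a2.step e, by omega, V_edge A e x, ?_, fun l h1 h2 => ?_,
            ?_⟩
          · simpa only [V_edge A e'] using a5.step (b_edge A e')
          · have := a5.step (f := fac A (P A (A.sh a)) o (P A b) ++ [l]) (Or.inr ⟨_, ⟨a, o, b, e,
              Or.inr ⟨a1, Or.inr ⟨l, h1, h2, rfl⟩⟩⟩, Or.inl rfl⟩)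
            rwa [← append_assoc, V_fac A x o (by omega) (fun _ => by unfold P; omega),
              ← V_edge A e] at this
          · have := a5.step (f := fac A (P A (A.sh a)) o (P A b - 1)) (Or.inr ⟨_, ⟨a, o, b, e,
              Or.inr ⟨a1, Or.inl rfl⟩⟩, Or.inl rfl⟩)
            rwa [V_fac A x o (by omega) (fun _ => by unfold P; omega)] at this
        · exact (A.shT a' (h2.eq A h3 ▸ a1)).elim
      · exact Or.inl (by simpa using (a6 l h1 h2).step (Or.inr h3))
      · have := a7.step (Or.inr h1)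
        rw [← singleton_append, ← append_assoc, V_succ, Nat.sub_add_cancel (by unfold P; omega)]
          at this
        exact Or.inl this
  rcases key with h | ⟨x, a, m', a1, a2, a3, rfl, a5, a6, a7⟩
  · exact ⟨w, k, h, h2, rfl⟩
  rcases garbage A (fun _ => Q0.hd A) h2 a with ⟨h3, h4⟩ | ⟨l, f', h3, h4, rfl, h5⟩ | h3
  · obtain ⟨f, hf, rfl⟩ := h3
    obtain rfl := h4.eq A (by simpa using hd_seg A f (P_lt A f) [])
    have hV : ∀ f, V A x (P A f) ++ seg (P A f) A.K = V A x A.K := fun f => by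
      have := V_fac A x (i := P A f) (j := A.K) none (by have := P_lt A f; omega)
        fun _ => by have := P_lt A f; omega
      simpa [fac] using this
    rcases H x m' a a2 hf with ⟨a', f', k', b1, b2, b3, b4⟩ | ⟨x₀, x₁, k', f', b1, rfl, b2, b3, b4⟩
    · exact ⟨_, _, ((Der.base (Or.inl ⟨a', Or.inl b1, rfl⟩)).run A b4).pad A (by omega),
        ⟨_, ⟨f', b2, rfl⟩, Or.inl rfl⟩, by rw [hV, nil_append, hV]⟩
    · exact ⟨_, _, ((Der.base (Or.inr (Or.inr (Or.inr ⟨x₀, b1, rfl⟩)))).run A b4).pad A (by omega),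
        ⟨_, ⟨f', b2, rfl⟩, Or.inl rfl⟩, by rw [hV, hV]⟩
  · exact ⟨_, _, a6 l h3 h4, h5, by simp⟩
  · refine ⟨_, _, a7, h3, ?_⟩
    rw [← singleton_append, ← append_assoc, V_succ, Nat.sub_add_cancel (by unfold P; omega)]

theorem next_cl {C : List (ℕ ⊕ S) → Prop} (hC : ∀ w, C w → ∃ a, Hd A a w) {f} (hf : Cl A C f)
    {x x' : List S} : (∀ a, V A x' (P A a) ++ f <+: V A x A.K → C f ∧ Hd A a f) ∧
      ∀ b, ¬ V A x' (P A b - 1) ++ f <+: V A x A.K := by
  obtain ⟨v, hv, h⟩ := hf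
  obtain ⟨a', r, rfl⟩ := hC _ hv
  refine ⟨fun a e => ?_, fun b e => ?_⟩
  · have hk := P_lt A a
    rcases h with rfl | rfl | ⟨b', rfl⟩
    · obtain rfl := P_inj A (inl.inj (V_next A (by omega) e).1)
      exact ⟨hv, r, rfl⟩
    all_goals
      have := inl.inj (V_next A (by omega) e).1
      unfold P at this; omega
  · have hk := P_lt A b
    rcases h with rfl | rfl | ⟨b', rfl⟩
    rotate_left 2
    · have h1 := inl.inj (V_next A (by omega) e).1
      rw [h1, ← singleton_append, ← append_assoc, V_succ] at e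
      have := inl.inj (V_next A (by omega) e).1
      unfold P at this; omega
    all_goals
      have := inl.inj (V_next A (by omega) e).1
      unfold P at this; omega

theorem sound (Bad : List S → Prop) (m : ℕ) (x : List S) (h0 : ∀ x₀, Bad x₀ → ¬ x₀ <+: x)
    (h1 : ∀ a k f, A.I a ∨ a = A.sh A.t0 → A.F f → URun A a x k f → m < k) :
    ¬ Lang A (P2 A Bad) m (V A x A.K) := by
  rintro ⟨w, k, h2, h3, h4⟩
  have key : ∀ r, w ++ r <+: V A x A.K → r ≠ [] → (∃ x' a₀ a m', (A.I a₀ ∨ a₀ = A.sh A.t0) ∧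
      URun A a₀ x' m' a ∧ m' ≤ m ∧ w = V A x' (P A a)) ∨ ∃ x' b, w = V A x' (P A b - 1) := by
    clear h4 h1
    induction h2 with
    | base h =>
      intro r e hr
      have hk := P_lt A A.t0
      rcases h with ⟨a, h, rfl⟩ | rfl | ⟨l, -, h, rfl⟩ | ⟨x₀, h, rfl⟩
      · exact Or.inl ⟨[], a, a, 0, h, .refl _, le_rfl, rfl⟩
      · exact Or.inr ⟨_, _, rfl⟩
      · rw [append_assoc] at e
        exact (h (V_next A (by omega) e).1).elim
      · obtain ⟨l, r, rfl⟩ := exists_cons_of_ne_nil hr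
        exact (h0 _ h (V_next A (by omega) e).2).elim
    | @step m w f _ hf ih =>
      intro r e hr
      have e' := (prefix_append (w ++ f) r).trans e
      rw [append_assoc] at e
      rcases hf with rfl | hf
      · rcases ih _ e (by simpa using hr) with ⟨x', a₀, a, m', b1, b2, b3, b4⟩ | h
        · exact Or.inl ⟨x', a₀, a, m', b1, b2, by omega, by simpa using b4⟩
        · exact Or.inr (by simpa using h)
      rcases ih _ e (by simp [hr]) with ⟨x', a₀, a, m', b1, b2, b3, rfl⟩ | ⟨x', b, rfl⟩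
      · obtain ⟨c1, c2⟩ := (next_cl A (fun _ => C0.hd A) hf).1 a e'
        obtain ⟨a', o, b, ed, ⟨h3, rfl⟩ | ⟨h3, h4, h5⟩⟩ := c1.cases
        · obtain rfl := c2.eq A h3
          exact Or.inl ⟨_, a₀, b, m' + 1, b1, b2.step ed, by omega, V_edge A ed x'⟩
        · obtain rfl := c2.eq A h4
          have hs := A.shlt a' b (A.TE a' o b h3 ed).1
          have hk := P_lt A (A.sh a')
          rcases h5 with rfl | ⟨l, -, h6, rfl⟩
          · exact Or.inr ⟨_, b, V_fac A x' o (by omega) fun _ => by unfold P; omega⟩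
          · rw [← append_assoc, V_fac A x' o (by omega) fun _ => by unfold P; omega] at e'
            exact (h6 (V_next A (by have := P_lt A b; omega) e').1).elim
      · exact ((next_cl A (fun _ => C0.hd A) hf).2 b e').elim
  have hk : k ≠ [] := by
    obtain ⟨v, hv, h⟩ := h3
    obtain ⟨a, r, rfl⟩ := hv.hd
    rcases h with rfl | rfl | ⟨b, rfl⟩ <;> simp
  rcases key k (h4 ▸ prefix_rfl) hk with ⟨x', a₀, a, m', b1, b2, b3, rfl⟩ | ⟨x', b, rfl⟩
  · obtain ⟨⟨f, hf, rfl⟩, c2⟩ := (next_cl A (x := x) (fun _ => Q0.hd A) h3).1 a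
      (by rw [h4])
    obtain rfl := c2.eq A (by simpa using hd_seg A f (P_lt A f) [])
    have := V_fac A x' (i := P A a) (j := A.K) none (by have := P_lt A a; omega)
      fun _ => by have := P_lt A a; omega
    simp only [fac, Option.toList_none, append_nil] at this
    obtain rfl := V_inj A (h4.trans this)
    have := h1 a₀ m' a b1 hf b2
    omega
  · exact (next_cl A (x := x) (fun _ => Q0.hd A) h3).2 b (by rw [h4])

theorem lang_run {R x₀ a} (h : R (V A x₀ (P A a))) {x k f} (r : URun A a x k f) (hf : A.F f) :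
    Lang A R k (V A (x₀ ++ x) A.K) := by
  refine ⟨_, _, by simpa using (Der.base h).run A r, ⟨_, ⟨f, hf, rfl⟩, Or.inl rfl⟩, ?_⟩
  have := V_fac A (x₀ ++ x) (i := P A f) (j := A.K) none (by have := P_lt A f; omega)
    fun _ => by have := P_lt A f; omega
  simpa [fac] using this.symm

end Pool.Agent.H.MP_dd548e_lc
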