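import Mathlib
import Pool.Agent.Lib.helper21.Queue
import Pool.Agent.H.MP_dd548e_lc.Text

set_option autoImplicit false

/-! A min-plus automaton detecting errors in traces of a counter machine. -/

namespace Pool.Agent.H.MP_dd548e_lc

open List Function Pool.Agent.Lib.helper21.While Pool.Agent.Lib.helper21.Mach
  Pool.Agent.Lib.helper21.Queue

inductive W (Q : Type) | t | s | ctl (o : Option Q) (l : Bool) | ca (q : Q) | cb (q : Q)

open W Classical

variable {Q : Type} (M : CM Q) (q₀ : Q)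

abbrev Sg (Q : Type) := Option (Q × Bool)

def dl (r : ℕ) : Sg Q → ℤ
  | none => if r = 0 then 1 else 0
  | some (q, b) => if M.reg q = r then
      (match M.eff q b with | none => 0 | some true => 1 | some false => -1) else 0

theorem dl_bd (r x) : -1 ≤ dl M r x ∧ dl M r x ≤ 1 := by
  rcases x with _ | ⟨q, b⟩ <;> simp only [dl] <;> split_ifs <;> try omega
  rcases M.eff q b with _ | _ | _ <;> simp

def val (r : ℕ) (x : List (Sg Q)) : ℤ := (x.map (dl M r)).sum

noncomputable def nx : W Q → Sg Q → W Q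
  | ctl o l, none => if l then ctl o l else t
  | ctl o _, some (q, b) => if o = some q then ctl (M.nxt q b) false else t
  | p, _ => p

def tr : W Q → Sg Q → ℕ → W Q → Prop
  | ca q, x, j, p => ((j : ℤ) = 1 - dl M (M.reg q) x ∧ p = ca q) ∨
      (x = some (q, true) ∧ j = 2 ∧ p = t)
  | cb q, x, j, p => ((j : ℤ) = 1 + dl M (M.reg q) x ∧ p = cb q) ∨
      (x = some (q, false) ∧ j = 1 ∧ p = t)
  | p, x, j, p' => j = 1 ∧ p' = nx M p x

inductive WRun (a : W Q) : List (Sg Q) → ℕ → W Q → Prop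
  | nil : WRun a [] 0 a
  | snoc {x c p y j p'} : WRun a x c p → j < 3 → tr M p y j p' → WRun a (x ++ [y]) (c + j + 1) p'

def Ini (p : W Q) : Prop := p = ctl (some q₀) true ∨ ∃ q, p = ca q ∨ p = cb q

def Fin' (p : W Q) : Prop := p = t ∨ ∃ q l, p = ctl (some q) l

def ok : Q → List (Sg Q) → List (Sg Q) → Prop
  | q, pre, some (q', b) :: l => q' = q ∧ (b = true → val M (M.reg q) pre ≤ 0) ∧
      (b = false → 1 ≤ val M (M.reg q) pre) ∧
      match M.nxt q b with
      | none => l = []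
      | some q'' => ok q'' (pre ++ [some (q', b)]) l
  | _, _, _ => False

theorem val_snoc (r x y) : val M r (x ++ [y]) = val M r x + dl M r y := by simp [val]

theorem step_val {q s pre} (h : ∀ r, (s r : ℤ) = val M r pre) (r) :
    (app (M.eff q (M.tst 0 (q, s))) (M.reg q) s r : ℤ) =
      val M r (pre ++ [some (q, M.tst 0 (q, s))]) := by
  rw [val_snoc, ← h]
  have h1 := M.nodec q
  have h2 : M.tst 0 (q, s) = decide (s (M.reg q) = 0) := by simp [CM.tst, CM.thr]
  simp only [dl, h2]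
  by_cases hr : M.reg q = r
  · subst hr
    by_cases h0 : s (M.reg q) = 0
    · simp only [h0, decide_true]
      rcases he : M.eff q true with _ | _ | _
      · simp [app, h0]
      · exact (h1 he).elim
      · simp [app, h0]
    · simp only [h0, decide_false]
      rcases M.eff q false with _ | _ | _ <;> simp [app]
      omega
  · rcases M.eff q (decide (s (M.reg q) = 0)) with _ | _ | _ <;> simp [app, hr, Ne.symm hr]

theorem halts_iff_ok {q s pre} (h : ∀ r, (s r : ℤ) = val M r pre) :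
    Halts (M.step 0) (q, s) ↔ ∃ l, ok M q pre l := by
  have h2 : ∀ q (s : St), M.tst 0 (q, s) = decide (s (M.reg q) = 0) := by simp [CM.tst, CM.thr]
  constructor
  · intro hh
    generalize hc : (q, s) = c at hh
    induction hh generalizing q s pre with
    | stop e =>
      subst hc
      simp only [CM.step, Option.map_eq_none_iff] at e
      refine ⟨[some (q, M.tst 0 (q, s))], rfl, ?_, ?_, by simp [e]⟩ <;> rw [h2, ← h] <;> simp
      omega
    | go e _ ih =>
      subst hc
      simp only [CM.step, Option.map_eq_some_iff] at e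
      obtain ⟨q', e, rfl⟩ := e
      obtain ⟨l, hl⟩ := ih (step_val M h) rfl
      refine ⟨some (q, M.tst 0 (q, s)) :: l, rfl, ?_, ?_, by simpa [e] using hl⟩ <;>
        rw [h2, ← h] <;> simp
      omega
  · rintro ⟨l, hl⟩
    induction l generalizing q s pre with
    | nil => exact hl.elim
    | cons y l ih =>
      rcases y with _ | ⟨q', b⟩
      · exact hl.elim
      obtain ⟨rfl, a1, a2, a3⟩ := hl
      obtain rfl : b = M.tst 0 (q', s) := by
        rw [h2]; rw [← h] at a1 a2
        cases b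
        · have := a2 rfl; simp; omega
        · have := a1 rfl; simp; omega
      rcases e : M.nxt q' (M.tst 0 (q', s)) with _ | q''
      · exact .stop (by simp [CM.step, e])
      · rw [e] at a3
        exact .go (by simp only [CM.step, e]; rfl) (ih (step_val M h) a3)

variable {M}

theorem WRun.tail {a x c} (h : WRun M a x c t) (y) : WRun M a (x ++ y) (c + 2 * y.length) t := by
  induction y using List.reverseRecOn with
  | nil => simpa using h
  | append_singleton y z ih =>
    have := ih.snoc (y := z) (j := 1) (p' := t) (by omega) ⟨rfl, rfl⟩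
    simpa [mul_add, add_assoc] using this

theorem WRun.jump {a x c p y j} (h : WRun M a x c p) (hj : j < 3) (e : tr M p y j t) (z) :
    WRun M a (x ++ y :: z) (c + j + 1 + 2 * z.length) t := by
  simpa using (h.snoc hj e).tail z

theorem WRun.det {a x c p} (h : WRun M a x c p) (ha : ∀ q, a ≠ ca q ∧ a ≠ cb q) :
    p = x.foldl (nx M) a ∧ c = 2 * x.length ∧ ∀ q, p ≠ ca q ∧ p ≠ cb q := by
  induction h with
  | nil => exact ⟨rfl, rfl, ha⟩
  | @snoc x c p y j p' _ _ e ih =>
    obtain ⟨h1, h2, h3⟩ := ih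
    have : j = 1 ∧ p' = nx M p y := by
      cases p with
      | ca q => exact ((h3 q).1 rfl).elim
      | cb q => exact ((h3 q).2 rfl).elim
      | _ => exact e
    refine ⟨by simp [this.2, ← h1], by simp; omega, fun q => ?_⟩
    rw [this.2]
    rcases p with _ | _ | _ | _ | _ <;> rcases y with _ | ⟨_, _⟩ <;> simp only [nx] <;>
      first | exact h3 q | (split_ifs <;> simp)

theorem WRun.ca_inv {q x c p} (h : WRun M (ca q) x c p) :
    (p = ca q ∧ (c : ℤ) = 2 * x.length - val M (M.reg q) x) ∨ (p = t ∧ ∃ x₁ x₂,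
      x = x₁ ++ some (q, true) :: x₂ ∧ (c : ℤ) = 2 * x.length - val M (M.reg q) x₁ + 1) := by
  induction h with
  | nil => exact Or.inl ⟨rfl, by simp [val]⟩
  | snoc _ _ e ih =>
    rcases ih with ⟨rfl, h⟩ | ⟨rfl, x₁, x₂, rfl, h⟩
    · rcases e with ⟨e, rfl⟩ | ⟨rfl, rfl, rfl⟩
      · exact Or.inl ⟨rfl, by simp [val_snoc]; omega⟩
      · exact Or.inr ⟨rfl, _, [], rfl, by simp; omega⟩
    · obtain ⟨rfl, rfl⟩ := e
      exact Or.inr ⟨rfl, x₁, x₂ ++ [_], append_assoc _ (_ :: x₂) _, by simp at h ⊢; omega⟩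

theorem WRun.cb_inv {q x c p} (h : WRun M (cb q) x c p) :
    (p = cb q ∧ (c : ℤ) = 2 * x.length + val M (M.reg q) x) ∨ (p = t ∧ ∃ x₁ x₂,
      x = x₁ ++ some (q, false) :: x₂ ∧ (c : ℤ) = 2 * x.length + val M (M.reg q) x₁) := by
  induction h with
  | nil => exact Or.inl ⟨rfl, by simp [val]⟩
  | snoc _ _ e ih =>
    rcases ih with ⟨rfl, h⟩ | ⟨rfl, x₁, x₂, rfl, h⟩
    · rcases e with ⟨e, rfl⟩ | ⟨rfl, rfl, rfl⟩
      · exact Or.inl ⟨rfl, by simp [val_snoc]; omega⟩
      · exact Or.inr ⟨rfl, _, [], rfl, by simp; omega⟩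
    · obtain ⟨rfl, rfl⟩ := e
      exact Or.inr ⟨rfl, x₁, x₂ ++ [_], append_assoc _ (_ :: x₂) _, by simp at h ⊢; omega⟩

variable (M)

theorem run_ca (q x) : ∃ c, WRun M (ca q) x c (ca q) := by
  induction x using List.reverseRecOn with
  | nil => exact ⟨0, .nil⟩
  | append_singleton x y ih =>
    obtain ⟨c, h⟩ := ih
    have := dl_bd M (M.reg q) y
    exact ⟨_, h.snoc (j := (1 - dl M (M.reg q) y).toNat) (by omega) (Or.inl ⟨by omega, rfl⟩)⟩

theorem run_cb (q x) : ∃ c, WRun M (cb q) x c (cb q) := by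
  induction x using List.reverseRecOn with
  | nil => exact ⟨0, .nil⟩
  | append_singleton x y ih =>
    obtain ⟨c, h⟩ := ih
    have := dl_bd M (M.reg q) y
    exact ⟨_, h.snoc (j := (1 + dl M (M.reg q) y).toNat) (by omega) (Or.inl ⟨by omega, rfl⟩)⟩

theorem detect (l : List (Sg Q)) : ∀ q pre lf,
    WRun M (ctl (some q₀) true) pre (2 * pre.length) (ctl (some q) lf) →
    (lf = true → l.head? ≠ some none) → ¬ ok M q pre l →
    ∃ a f c, Ini q₀ a ∧ Fin' f ∧ c ≤ 2 * (pre ++ l).length ∧ WRun M a (pre ++ l) c f := by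
  induction l with
  | nil => exact fun q pre lf h _ _ => ⟨_, _, 2 * pre.length, Or.inl rfl, Or.inr ⟨q, lf, rfl⟩,
      by simp, by simpa using h⟩
  | cons y l ih =>
    intro q pre lf h h1 h2
    rcases y with _ | ⟨q', b⟩
    · obtain rfl : lf = false := by simpa using h1
      exact ⟨_, _, _, Or.inl rfl, Or.inl rfl, by simp; omega,
        h.jump (j := 1) (by omega) ⟨rfl, rfl⟩ l⟩
    by_cases a0 : q' = q
    swap
    · exact ⟨_, _, _, Or.inl rfl, Or.inl rfl, by simp; omega,
        h.jump (j := 1) (by omega) ⟨rfl, by simp [nx, Ne.symm a0]⟩ l⟩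
    subst a0
    by_cases a1 : b = true → val M (M.reg q') pre ≤ 0
    swap
    · push Not at a1
      obtain ⟨rfl, a1⟩ := a1
      obtain ⟨c, hc⟩ := run_ca M q' pre
      have := (hc.ca_inv.resolve_right (by simp)).2
      exact ⟨_, _, _, Or.inr ⟨q', Or.inl rfl⟩, Or.inl rfl, by simp; omega,
        hc.jump (j := 2) (by omega) (Or.inr ⟨rfl, rfl, rfl⟩) l⟩
    by_cases a2 : b = false → 1 ≤ val M (M.reg q') pre
    swap
    · push Not at a2
      obtain ⟨rfl, a2⟩ := a2
      obtain ⟨c, hc⟩ := run_cb M q' pre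
      have := (hc.cb_inv.resolve_right (by simp)).2
      exact ⟨_, _, _, Or.inr ⟨q', Or.inr rfl⟩, Or.inl rfl, by simp; omega,
        hc.jump (j := 1) (by omega) (Or.inr ⟨rfl, rfl, rfl⟩) l⟩
    have h3 := h.snoc (y := some (q', b)) (j := 1) (p' := ctl (M.nxt q' b) false) (by omega)
      ⟨rfl, by simp [nx]⟩
    simp only [ok, true_and, not_and] at h2
    have h4 := h2 a1 a2
    rcases e : M.nxt q' b with _ | q''
    · rw [e] at h3 h4
      obtain ⟨z, l, rfl⟩ := exists_cons_of_ne_nil h4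
      have h5 := h3.jump (y := z) (j := 1) (by omega)
        ⟨rfl, by rcases z with _ | ⟨_, _⟩ <;> simp [nx]⟩ l
      rw [append_assoc] at h5
      exact ⟨_, _, _, Or.inl rfl, Or.inl rfl, by simp; omega, h5⟩
    · rw [e] at h3 h4
      simpa using ih q'' (pre ++ [some (q', b)]) false (by simpa [mul_add] using h3) (by simp) h4

theorem ok_fold (l : List (Sg Q)) : ∀ q pre lf, ok M q pre l →
    l.foldl (nx M) (ctl (some q) lf) = ctl none false ∧ ∀ x₁ q' b x₂,
      l = x₁ ++ some (q', b) :: x₂ → (b = true → val M (M.reg q') (pre ++ x₁) ≤ 0) ∧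
        (b = false → 1 ≤ val M (M.reg q') (pre ++ x₁)) := by
  induction l with
  | nil => exact fun _ _ _ h => h.elim
  | cons y l ih =>
    intro q pre lf h
    rcases y with _ | ⟨q', b⟩
    · exact h.elim
    obtain ⟨rfl, a1, a2, a3⟩ := h
    rcases e : M.nxt q' b with _ | q''
    · rw [e] at a3
      subst a3
      refine ⟨by simp [nx, e], ?_⟩
      rintro (_ | ⟨z, x₁⟩) q b x₂ h
      · cases h; simpa using ⟨a1, a2⟩
      · simp at h
    · rw [e] at a3
      obtain ⟨h1, h2⟩ := ih _ _ false a3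
      refine ⟨by simpa [nx, e] using h1, ?_⟩
      rintro (_ | ⟨z, x₁⟩) q b x₂ h
      · cases h; simpa using ⟨a1, a2⟩
      · obtain ⟨rfl, h'⟩ := cons.inj h
        simpa using h2 x₁ q b x₂ h'

theorem run_load (n : ℕ) :
    WRun M (ctl (some q₀) true) (replicate n none) (2 * n) (ctl (some q₀) true) := by
  induction n with
  | zero => exact .nil
  | succ n ih =>
    rw [replicate_succ']
    exact ih.snoc (j := 1) (by omega) ⟨rfl, rfl⟩

theorem split_load {n : ℕ} {l x₁ x₂ : List (Sg Q)} {y}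
    (h : replicate n none ++ l = x₁ ++ some y :: x₂) :
    ∃ x, x₁ = replicate n none ++ x ∧ l = x ++ some y :: x₂ := by
  induction n generalizing x₁ with
  | zero => exact ⟨x₁, rfl, h⟩
  | succ n ih =>
    rcases x₁ with _ | ⟨z, x₁⟩
    · simp [replicate_succ] at h
    · simp only [replicate_succ, cons_append, cons.injEq] at h ⊢
      obtain ⟨x, h1, h2⟩ := ih h.2
      exact ⟨x, ⟨h.1.symm, h1⟩, h2⟩

theorem costly {n l} (h : ok M q₀ (replicate n none) l) {a c f} (ha : Ini q₀ a ∨ a = s)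
    (hf : Fin' f) (r : WRun M a (replicate n none ++ l) c f) :
    2 * (replicate n none ++ l).length < c := by
  obtain ⟨h1, h2⟩ := ok_fold M l q₀ _ true h
  rcases ha with (rfl | ⟨q, rfl | rfl⟩) | rfl
  · have := (r.det (by simp)).1
    rw [foldl_append, ← ((run_load M q₀ n).det (by simp)).1, h1] at this
    simp [Fin', this] at hf
  · rcases r.ca_inv with ⟨rfl, -⟩ | ⟨-, x₁, x₂, e, hc⟩
    · simp [Fin'] at hf
    · obtain ⟨x, rfl, e'⟩ := split_load e
      have := (h2 _ _ _ _ e').1 rfl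
      omega
  · rcases r.cb_inv with ⟨rfl, -⟩ | ⟨-, x₁, x₂, e, hc⟩
    · simp [Fin'] at hf
    · obtain ⟨x, rfl, e'⟩ := split_load e
      have := (h2 _ _ _ _ e').2 rfl
      omega
  · have := (r.det (by simp)).1
    have h3 : ∀ x : List (Sg Q), x.foldl (nx M) s = s := fun x => by
      induction x with
      | nil => rfl
      | cons y x ih => exact ih
    simp [Fin', this, h3] at hf

variable (idx : W Q → ℕ) (hi : Injective idx) (L : ℕ) (hL : ∀ p, idx p ≤ L)

noncomputable def aut : Aut (W Q × Fin 3) (Sg Q) where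
  pos a := (if a.1 = s then 0 else 3 * idx a.1 + 3) + a.2
  inj := by
    rintro ⟨p, i⟩ ⟨p', i'⟩ h
    have := i.2
    have := i'.2
    simp only at h
    split_ifs at h with a b b
    · exact Prod.ext (a.trans b.symm) (Fin.ext (by simpa using h))
    · omega
    · omega
    · exact Prod.ext (hi (by simp only; omega)) (Fin.ext (by simp only; omega))
  K := 9 * L + 30
  hK a := by have := a.2.2; have := hL a.1; split_ifs <;> omega
  E a o b := match o with
    | none => b.1 = a.1 ∧ b.2.val = a.2 + 1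
    | some x => b.2 = 0 ∧ tr M a.1 x a.2 b.1
  eps a b h := by simp only [h.1, h.2]; omega
  T a := a.1 = t
  sh a := (s, a.2)
  t0 := (t, 0)
  I a := a.2 = 0 ∧ Ini q₀ a.1
  F a := a.2 = 0 ∧ Fin' a.1
  T0 := rfl
  TE := by
    rintro ⟨p, i⟩ (_ | x) ⟨p', i'⟩ rfl h
    · exact ⟨h.1, rfl, h.2⟩
    · exact ⟨h.2.2, h.1, h.2.1, rfl⟩
  shT a := by simp
  shlt a b h := by have := a.2.2; simp [h]; omega

theorem urun_of {a x c p} (h : WRun M a x c p) :
    URun (aut M q₀ idx hi L hL) (a, 0) x c (p, 0) := by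
  induction h with
  | nil => exact .refl _
  | @snoc x c p y j p' _ hj e ih =>
    have : ∀ i (hi' : i < 3), URun (aut M q₀ idx hi L hL) (a, 0) x (c + i) (p, ⟨i, hi'⟩) := by
      intro i
      induction i with
      | zero => exact fun _ => ih
      | succ i ih' =>
        intro h
        simpa [add_assoc] using (ih' (by omega)).step (o := none) (c := (p, ⟨i + 1, h⟩)) ⟨rfl, rfl⟩
    exact (this j hj).step (o := some y) ⟨rfl, e⟩

theorem of_urun {a x m b} (h : URun (aut M q₀ idx hi L hL) a x m b) (ha : a.2 = 0) :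
    ∃ c, WRun M a.1 x c b.1 ∧ m = c + b.2 := by
  induction h with
  | refl => exact ⟨0, .nil, by simp [ha]⟩
  | @step x m b o b' _ e ih =>
    obtain ⟨c, h1, h2⟩ := ih
    cases o with
    | none => exact ⟨c, by simpa [e.1] using h1, by rw [e.2]; omega⟩
    | some y => exact ⟨_, h1.snoc b.2.2 e.2, by rw [e.1, h2]; rfl⟩

def Bad (n : ℕ) (x : List (Sg Q)) : Prop :=
  (∃ j < n, ∃ y, x = replicate j none ++ [some y]) ∨ x = replicate (n + 1) none

theorem shape (n : ℕ) (x : List (Sg Q)) : (∃ x₀ x₁, Bad n x₀ ∧ x = x₀ ++ x₁) ∨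
    (∃ j, x = replicate j none) ∨ ∃ y l, x = replicate n none ++ some y :: l := by
  induction n generalizing x with
  | zero =>
    rcases x with _ | ⟨_ | y, x⟩
    · exact Or.inr (Or.inl ⟨0, rfl⟩)
    · exact Or.inl ⟨[none], x, Or.inr rfl, rfl⟩
    · exact Or.inr (Or.inr ⟨y, x, rfl⟩)
  | succ n ih =>
    rcases x with _ | ⟨_ | y, x⟩
    · exact Or.inr (Or.inl ⟨0, rfl⟩)
    · rcases ih x with ⟨x₀, x₁, ⟨j, hj, y, rfl⟩ | rfl, rfl⟩ | ⟨j, rfl⟩ | ⟨y, l, rfl⟩
      · exact Or.inl ⟨_, x₁, Or.inl ⟨j + 1, by omega, y, rfl⟩, rfl⟩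
      · exact Or.inl ⟨_, x₁, Or.inr rfl, rfl⟩
      · exact Or.inr (Or.inl ⟨j + 1, rfl⟩)
      · exact Or.inr (Or.inr ⟨y, l, rfl⟩)
    · exact Or.inl ⟨[some y], x, Or.inl ⟨0, by omega, y, rfl⟩, rfl⟩

theorem lang_iff (n : ℕ) : (∀ m z, Lang (aut M q₀ idx hi L hL)
      (· = V (aut M q₀ idx hi L hL) [] (P (aut M q₀ idx hi L hL) (t, 0))) m z →
      Lang (aut M q₀ idx hi L hL) (P2 (aut M q₀ idx hi L hL) (Bad n)) m z) ↔
    ¬ Halts (M.step 0) (q₀, init n) := by
  have hv : ∀ r, (init n r : ℤ) = val M r (replicate n none) := fun r => by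
    by_cases h : r = 0 <;> simp [init, val, dl, h]
  have ht : ∀ x : List (Sg Q), WRun M t x (2 * x.length) t := fun x => by
    simpa using (WRun.nil (M := M) (a := t)).tail x
  rw [halts_iff_ok M hv]
  constructor
  · rintro h ⟨l, hl⟩
    refine sound _ (Bad n) _ (replicate n none ++ l) ?_ ?_ (h _ _
      (lang_run (aut M q₀ idx hi L hL) (x₀ := []) 
        (R := (· = V (aut M q₀ idx hi L hL) [] (P (aut M q₀ idx hi L hL) (t, 0)))) rfl
        (urun_of M q₀ idx hi L hL (ht (replicate n none ++ l))) ⟨rfl, Or.inl rfl⟩))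
    · rintro _ (⟨j, hj, y, rfl⟩ | rfl) ⟨r, e⟩
      · rw [append_assoc] at e
        obtain ⟨x, e, -⟩ := split_load e.symm
        have := congrArg length e
        simp at this; omega
      · rw [replicate_succ', append_assoc, append_cancel_left_eq] at e
        subst e
        exact hl
    · intro a k f ha hf r
      obtain ⟨c, h1, h2⟩ := of_urun M q₀ idx hi L hL r (by
        rcases ha with ha | rfl
        exacts [ha.1, rfl])
      have := costly M q₀ hl (ha.imp (fun h => h.2) fun h => by rw [h]; rfl) hf.2 h1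
      simp only [length_append, length_replicate] at this ⊢
      omega
  · intro h m
    refine complete _ (Bad n) m fun x k f r hf => ?_
    obtain ⟨c, h1, h2⟩ := of_urun M q₀ idx hi L hL r rfl
    have h3 := (h1.det (by simp [aut])).2.1
    rcases shape n x with ⟨x₀, x₁, b, rfl⟩ | ⟨j, rfl⟩ | ⟨y, l, rfl⟩
    · exact Or.inr ⟨x₀, x₁, _, (t, 0), b, rfl, ⟨rfl, Or.inl rfl⟩, by simp at h3; omega,
        urun_of M q₀ idx hi L hL (ht x₁)⟩
    · exact Or.inl ⟨(_, 0), (_, 0), _, ⟨rfl, Or.inl rfl⟩, ⟨rfl, Or.inr ⟨_, _, rfl⟩⟩,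
        by simp at h3; omega, urun_of M q₀ idx hi L hL (run_load M q₀ j)⟩
    · obtain ⟨a, f', c', b1, b2, b3, b4⟩ := detect M q₀ (some y :: l) q₀ (replicate n none) true
        (by simpa using run_load M q₀ n) (by simp) fun e => h ⟨_, e⟩
      exact Or.inl ⟨(a, 0), (f', 0), c', ⟨rfl, b1⟩, ⟨rfl, b2⟩, by omega,
        urun_of M q₀ idx hi L hL b4⟩

end Pool.Agent.H.MP_dd548e_lc
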