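import Mathlib
import Pool.Agent.H.MP_dd548e_lc.Check

set_option autoImplicit false

/-! The OL systems whose one-step derivations produce the languages `P B ^ m Q`. -/

namespace Pool.Agent.H.MP_dd548e_lc

open List Sum Relation Function

def Seqs {α : Type} (St : α → α → Prop) (a : α) : Set (ℕ → α) :=
  {s | s 0 = a ∧ ∀ n, St (s n) (s (n + 1))}

theorem seqs_sub {α : Type} {S₁ S₂ : α → α → Prop} {a : α} {Inv : α → Prop} (h0 : Inv a)
    (h : ∀ u u', Inv u → S₁ u u' → Inv u' ∧ S₂ u u') : Seqs S₁ a ⊆ Seqs S₂ a := by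
  rintro s ⟨h1, h2⟩
  have : ∀ n, Inv (s n) := fun n => by
    induction n with
    | zero => exact h1 ▸ h0
    | succ n ih => exact (h _ _ ih (h2 n)).1
  exact ⟨h1, fun n => (h _ _ (this n) (h2 n)).2⟩

theorem of_seqs_sub {α : Type} {S₁ S₂ : α → α → Prop} {a u u' : α} {Inv : α → Prop}
    (h : ∀ u, Inv u → ∃ u', Inv u' ∧ S₁ u u') (hs : Seqs S₁ a ⊆ Seqs S₂ a)
    (r : ReflTransGen S₁ a u) (e : S₁ u u') (hu : Inv u') : S₂ u u' := by
  choose g h1 h2 using h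
  obtain ⟨D, h0, hD⟩ : ∃ D : ℕ → {u // Inv u}, D 0 = ⟨u', hu⟩ ∧
      ∀ n, D (n + 1) = ⟨g _ (D n).2, h1 _ _⟩ :=
    ⟨fun n => Nat.rec ⟨u', hu⟩ (fun _ p => ⟨g _ p.2, h1 _ _⟩) n, rfl, fun _ => rfl⟩
  have : ∃ s ∈ Seqs S₁ a, ∃ n, s n = u ∧ s (n + 1) = u' := by
    clear hs
    induction r using ReflTransGen.head_induction_on with
    | refl =>
      refine ⟨fun n => Nat.casesOn n u fun n => (D n).1, ⟨rfl, ?_⟩, 0, rfl, congrArg Subtype.val h0⟩
      rintro (_ | n)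
      · simpa [h0] using e
      · simpa [hD] using h2 _ (D n).2
    | @head a b e' _ ih =>
      obtain ⟨s, ⟨h3, h4⟩, n, h5⟩ := ih
      refine ⟨fun n => Nat.casesOn n a s, ⟨rfl, ?_⟩, n + 1, h5⟩
      rintro (_ | n)
      · simpa [h3] using e'
      · exact h4 n
  obtain ⟨s, h3, n, rfl, rfl⟩ := this
  exact (hs h3).2 n

def Step {α : Type} (ρ : α → List α → Prop) (u u' : List α) : Prop :=
  ∃ ws, Forall₂ ρ u ws ∧ u' = ws.flatten

theorem step_nil {α : Type} {ρ : α → List α → Prop} {u'} : Step ρ [] u' ↔ u' = [] := by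
  simp [Step]

theorem step_cons {α : Type} {ρ : α → List α → Prop} {a u u'} :
    Step ρ (a :: u) u' ↔ ∃ w v, ρ a w ∧ Step ρ u v ∧ u' = w ++ v := by
  constructor
  · rintro ⟨_, _ | ⟨h1, h2⟩, rfl⟩
    exact ⟨_, _, h1, ⟨_, h2, rfl⟩, rfl⟩
  · rintro ⟨w, _, h1, ⟨ws, h2, rfl⟩, rfl⟩
    exact ⟨w :: ws, .cons h1 h2, rfl⟩

theorem step_code {α : Type} {c : α → ℕ} (hc : Injective c) {ρ : α → List α → Prop}
    {R : List (ℕ × List ℕ)} (hR : ∀ a w, (a, w) ∈ R ↔ ∃ g w', ρ g w' ∧ a = c g ∧ w = w'.map c)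
    (u : List α) : ∀ u', Step (fun a w => (a, w) ∈ R) (u.map c) u' ↔
      ∃ v, Step ρ u v ∧ u' = v.map c := by
  induction u with
  | nil => simp [step_nil]
  | cons a u ih =>
    intro u'
    simp only [map_cons, step_cons, ih]
    constructor
    · rintro ⟨_, _, h0, ⟨v, h3, rfl⟩, rfl⟩
      obtain ⟨g, w', h1, h2, rfl⟩ := (hR _ _).1 h0
      obtain rfl := hc h2
      exact ⟨_, ⟨w', v, h1, h3, rfl⟩, by simp⟩
    · rintro ⟨_, ⟨w', v, h1, h3, rfl⟩, rfl⟩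
      exact ⟨_, _, (hR _ _).2 ⟨a, w', h1, rfl, rfl⟩, ⟨v, h3, rfl⟩, by simp⟩

variable {N S : Type} (A : Aut N S)

def rho (R : List (ℕ ⊕ S) → Prop) : (ℕ ⊕ S) ⊕ Bool → List ((ℕ ⊕ S) ⊕ Bool) → Prop
  | inr true, w => ∃ p, R p ∧ w = inr true :: p.map inl
  | inr false, w => ∃ k, Cl A (Q0 A) k ∧ w = k.map inl ++ [inr false]
  | inl (inl i), w => i < A.K ∧ w = []
  | inl (inr _), w => ∃ f, B A f ∧ w = f.map inl

def wrap (v : List (ℕ ⊕ S)) : List ((ℕ ⊕ S) ⊕ Bool) := inr true :: (v.map inl ++ [inr false])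

def cnt (v : List (ℕ ⊕ S)) : ℕ := v.countP isRight

theorem der_succ {R m z} : Der A R (m + 1) z ↔
    Der A (fun w => ∃ p f, R p ∧ B A f ∧ w = p ++ f) m z := by
  constructor
  · intro h
    generalize e : m + 1 = k at h
    induction h generalizing m with
    | base => cases e
    | @step k w f h hf ih =>
      obtain rfl : m = k := by omega
      cases m with
      | zero => cases h with | base h => exact .base ⟨_, _, h, hf, rfl⟩
      | succ m => exact (ih rfl).step hf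
  · intro h
    induction h with
    | base h => obtain ⟨p, f, h1, h2, rfl⟩ := h; exact (Der.base h1).step h2
    | step _ hf ih => exact ih.step hf

theorem step_mid (R₀) (v : List (ℕ ⊕ S)) (hv : ∀ l ∈ v, U A l) : ∀ (R : List (ℕ ⊕ S) → Prop) u',
    (∃ p y, R p ∧ Step (rho A R₀) (v.map inl ++ [inr false]) y ∧ u' = p.map inl ++ y) ↔
      ∃ z, Lang A R (cnt v) z ∧ u' = z.map inl ++ [inr false] := by
  induction v with
  | nil =>
    intro R u'
    simp only [map_nil, nil_append, step_cons, step_nil, rho]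
    constructor
    · rintro ⟨p, _, h1, ⟨_, _, ⟨k, h2, rfl⟩, rfl, rfl⟩, rfl⟩
      exact ⟨_, ⟨p, k, .base h1, h2, rfl⟩, by simp⟩
    · rintro ⟨_, ⟨p, k, h1, h2, rfl⟩, rfl⟩
      cases h1 with
      | base h1 => exact ⟨p, _, h1, ⟨_, _, ⟨k, h2, rfl⟩, rfl, rfl⟩, by simp⟩
  | cons l v ih =>
    intro R u'
    have ih := ih fun l hl => hv l (mem_cons_of_mem _ hl)
    simp only [map_cons, cons_append, step_cons]
    cases l with
    | inl i =>
      rw [show cnt (inl i :: v) = cnt v by simp [cnt], ← ih]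
      constructor
      · rintro ⟨p, _, h1, ⟨_, y, ⟨-, rfl⟩, h2, rfl⟩, rfl⟩
        exact ⟨p, _, h1, h2, rfl⟩
      · rintro ⟨p, y, h1, h2, rfl⟩
        exact ⟨p, _, h1, ⟨_, y, ⟨hv _ mem_cons_self i rfl, rfl⟩, h2, rfl⟩, rfl⟩
    | inr x =>
      rw [show cnt (inr x :: v) = cnt v + 1 by simp [cnt]]
      simp only [Lang, der_succ]
      refine Iff.trans ?_ (ih _ u')
      constructor
      · rintro ⟨p, _, h1, ⟨_, y, ⟨f, hf, rfl⟩, h2, rfl⟩, rfl⟩
        exact ⟨_, y, ⟨p, f, h1, hf, rfl⟩, h2, by simp⟩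
      · rintro ⟨_, y, ⟨p, f, h1, hf, rfl⟩, h2, rfl⟩
        exact ⟨p, _, h1, ⟨_, y, ⟨f, hf, rfl⟩, h2, rfl⟩, by simp⟩

theorem step_wrap (R) (v : List (ℕ ⊕ S)) (hv : ∀ l ∈ v, U A l) (u') :
    Step (rho A R) (wrap v) u' ↔ ∃ z, Lang A R (cnt v) z ∧ u' = wrap z := by
  simp only [wrap, step_cons, rho]
  constructor
  · rintro ⟨_, y, ⟨p, h1, rfl⟩, h2, rfl⟩
    obtain ⟨z, h3, h4⟩ := (step_mid A R v hv R _).1 ⟨p, y, h1, h2, rfl⟩
    exact ⟨z, h3, by rw [cons_append, h4]⟩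
  · rintro ⟨z, h3, rfl⟩
    obtain ⟨p, y, h1, h2, h4⟩ := (step_mid A R v hv R _).2 ⟨z, h3, rfl⟩
    exact ⟨_, y, ⟨p, h1, rfl⟩, h2, by rw [cons_append, h4]⟩

def UW (w : List (ℕ ⊕ S)) : Prop := ∀ l ∈ w, U A l

theorem uw_seg (i) {j} (h : j ≤ A.K) : UW A (seg i j) := by
  intro l hl k e
  simp only [seg, mem_map, mem_range'_1] at hl
  obtain ⟨k', h1, rfl⟩ := hl
  cases e; omega

theorem uw_append {u v} (h : UW A u) (h' : UW A v) : UW A (u ++ v) :=
  fun l hl => (mem_append.1 hl).elim (h l) (h' l)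

theorem uw_cons {l v} (h : U A l) (h' : UW A v) : UW A (l :: v) :=
  fun l' hl => (mem_cons.1 hl).elim (· ▸ h) (h' l')

theorem uw_nil : UW A [] := fun _ h => by cases h

theorem uw_fac (i o) {j} (h : j ≤ A.K) : UW A (fac A i o j) := by
  cases o
  · exact uw_seg A i h
  · exact uw_append A (uw_seg A i le_rfl) (uw_cons A (fun _ e => by cases e) (uw_seg A 0 h))

theorem uw_V (x) {j} (h : j ≤ A.K) : UW A (V A x j) := by
  induction x with
  | nil => simpa [V] using uw_seg A 0 h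
  | cons y x ih =>
    rw [V_cons]
    exact uw_append A (uw_seg A 0 le_rfl) (uw_cons A (fun _ e => by cases e) ih)

theorem uw_cl {C} (hC : ∀ w, C w → UW A w) {w} (h : Cl A C w) : UW A w := by
  obtain ⟨v, hv, rfl | rfl | ⟨b, rfl⟩⟩ := h
  · exact hC _ hv
  · exact fun l hl => hC _ hv l (mem_of_mem_tail hl)
  · refine uw_cons A ?_ fun l hl => hC _ hv l (mem_of_mem_tail hl)
    rintro _ ⟨⟩
    have := P_lt A b; omega

theorem uw_B {w} (h : B A w) : UW A w := by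
  rcases h with rfl | h
  · exact uw_nil A
  refine uw_cl A ?_ h
  rintro _ ⟨a, o, b, -, rfl | ⟨-, rfl | ⟨l, h, -, rfl⟩⟩⟩ <;> have := P_lt A b
  · exact uw_fac A _ _ (by omega)
  · exact uw_fac A _ _ (by omega)
  · exact uw_append A (uw_fac A _ _ (by omega)) (uw_cons A h (uw_nil A))

theorem uw_Q {w} (h : Cl A (Q0 A) w) : UW A w :=
  uw_cl A (by rintro _ ⟨f, -, rfl⟩; exact uw_seg A _ le_rfl) h

theorem uw_P2 {Bad w} (h : P2 A Bad w) : UW A w := by
  have := P_lt A A.t0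
  rcases h with ⟨a, -, rfl⟩ | rfl | ⟨l, h, -, rfl⟩ | ⟨x, -, rfl⟩
  · exact uw_V A _ (by have := P_lt A a; omega)
  · exact uw_V A _ (by omega)
  · exact uw_append A (uw_V A _ (by omega)) (uw_cons A h (uw_nil A))
  · exact uw_V A _ (by omega)

theorem uw_lang {R} (hR : ∀ w, R w → UW A w) {m z} (h : Lang A R m z) : UW A z := by
  obtain ⟨w, k, h1, h2, rfl⟩ := h
  refine uw_append A ?_ (uw_Q A h2)
  induction h1 with
  | base h => exact hR _ h
  | step _ hf ih => exact uw_append A ih (uw_B A hf)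

theorem cnt_seg (i j) : cnt (seg i j : List (ℕ ⊕ S)) = 0 := by simp [cnt, seg]

theorem cnt_append (u v : List (ℕ ⊕ S)) : cnt (u ++ v) = cnt u + cnt v := countP_append

theorem cnt_inr (x) (v : List (ℕ ⊕ S)) : cnt (inr x :: v) = cnt v + 1 := by simp [cnt]

theorem cnt_V (x : List S) (j) : cnt (V A x j) = x.length := by
  induction x with
  | nil => simpa [V] using cnt_seg 0 j
  | cons y x ih => rw [V_cons, cnt_append, cnt_seg, cnt_inr, ih]; simp

theorem lang_cnt {R p} (hp : R p) {a x b f} (e : A.E a (some x) b) (hf : A.F f) {j m}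
    (h : j ≤ m) : ∃ z, Lang A R m z ∧ cnt z = cnt p + j := by
  have : ∃ w, Der A R j w ∧ cnt w = cnt p + j := by
    clear h
    induction j with
    | zero => exact ⟨p, .base hp, rfl⟩
    | succ j ih =>
      obtain ⟨w, h1, h2⟩ := ih
      exact ⟨_, h1.step (b_edge A e), by simp only [fac, cnt_append, cnt_inr, cnt_seg]; omega⟩
  obtain ⟨w, h1, h2⟩ := this
  exact ⟨_, ⟨w, _, h1.pad A h, ⟨_, ⟨f, hf, rfl⟩, Or.inl rfl⟩, rfl⟩, by
    simpa only [cnt_append, cnt_seg, Nat.add_zero] using h2⟩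

theorem reach_cnt {R} (hR : ∀ w, R w → UW A w) {p p'} (hp : R p) (h0 : cnt p = 0) (hp' : R p')
    (h1 : 0 < cnt p') {a x b f} (e : A.E a (some x) b) (hf : A.F f) (m : ℕ) :
    ∃ v, UW A v ∧ cnt v = m ∧ ReflTransGen (Step (rho A R)) (wrap []) (wrap v) := by
  have : ∀ m, ∃ v, UW A v ∧ m ≤ cnt v ∧ ReflTransGen (Step (rho A R)) (wrap []) (wrap v) := by
    intro m
    induction m with
    | zero => exact ⟨[], uw_nil A, le_rfl, .refl⟩
    | succ m ih =>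
      obtain ⟨v, h2, h3, h4⟩ := ih
      obtain ⟨z, h5, h6⟩ := lang_cnt A hp' e hf h3
      exact ⟨z, uw_lang A hR h5, by omega, h4.tail ((step_wrap A R v h2 _).2 ⟨z, h5, rfl⟩)⟩
  obtain ⟨v, h2, h3, h4⟩ := this m
  obtain ⟨z, h5, h6⟩ := lang_cnt A hp e hf h3
  exact ⟨z, uw_lang A hR h5, by omega, h4.tail ((step_wrap A R v h2 _).2 ⟨z, h5, rfl⟩)⟩

theorem Lang.mono {R R' m z} (h : Lang A R m z) (hR : ∀ w, R w → R' w) : Lang A R' m z := by
  obtain ⟨w, k, h1, h2⟩ := h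
  exact ⟨w, k, h1.mono A hR, h2⟩

theorem Lang.or {R R' m z} (h : Lang A (fun w => R w ∨ R' w) m z) :
    Lang A R m z ∨ Lang A R' m z := by
  obtain ⟨w, k, h1, h2, rfl⟩ := h
  have : Der A R m w ∨ Der A R' m w := by
    induction h1 with
    | base h => exact h.imp .base .base
    | step _ hf ih => exact ih.imp (·.step hf) (·.step hf)
  exact this.imp (fun h => ⟨w, k, h, h2, rfl⟩) fun h => ⟨w, k, h, h2, rfl⟩

section
variable {c : (ℕ ⊕ S) ⊕ Bool → ℕ} (hc : Injective c) {R R' : List (ℕ ⊕ S) → Prop}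
  {L₁ L₂ : List (ℕ × List ℕ)}
  (h₁ : ∀ a w, (a, w) ∈ L₁ ↔
    ∃ g w', rho A (fun w => R' w ∨ R w) g w' ∧ a = c g ∧ w = w'.map c)
  (h₂ : ∀ a w, (a, w) ∈ L₂ ↔ ∃ g w', rho A R g w' ∧ a = c g ∧ w = w'.map c)
include hc h₁ h₂

theorem seqs_iff (hR : ∀ w, R w → UW A w) (hR' : ∀ w, R' w → UW A w) {p p'} (hp : R p)
    (h0 : cnt p = 0) (hp' : R p') (h1 : 0 < cnt p') {a x b f} (e : A.E a (some x) b)
    (hf : A.F f) : Seqs (Step fun a w => (a, w) ∈ L₁) ((wrap []).map c) =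
      Seqs (Step fun a w => (a, w) ∈ L₂) ((wrap []).map c) ↔
      ∀ m z, Lang A R' m z → Lang A R m z := by
  have hO : ∀ w, R' w ∨ R w → UW A w := fun w h => h.elim (hR' w) (hR w)
  constructor
  · intro h m z hz
    obtain ⟨v, a1, rfl, a3⟩ := reach_cnt A hO (Or.inr hp) h0 (Or.inr hp') h1 e hf m
    have hz' := hz.mono A (R' := fun w => R' w ∨ R w) fun _ => Or.inl
    have := of_seqs_sub (Inv := fun u => ∃ v, UW A v ∧ u = (wrap v).map c) ?_ h.subset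
      (a3.lift (map c) fun u u' s => (step_code hc h₁ u _).2 ⟨u', s, rfl⟩)
      ((step_code hc h₁ _ _).2 ⟨_, (step_wrap A _ v a1 _).2 ⟨z, hz', rfl⟩, rfl⟩)
      ⟨z, uw_lang A hO hz', rfl⟩
    · obtain ⟨_, s, e'⟩ := (step_code hc h₂ _ _).1 this
      obtain ⟨z', h3, rfl⟩ := (step_wrap A _ v a1 _).1 s
      have := map_injective_iff.2 hc e'
      simp only [wrap, cons.injEq, true_and, append_cancel_right_eq] at this
      rwa [map_injective_iff.2 inl_injective this]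
    · rintro _ ⟨v, hv, rfl⟩
      obtain ⟨z, h5, -⟩ := lang_cnt A (R := fun w => R' w ∨ R w) (Or.inr hp) e hf
        (Nat.zero_le (cnt v))
      exact ⟨_, ⟨z, uw_lang A hO h5, rfl⟩,
        (step_code hc h₁ _ _).2 ⟨_, (step_wrap A _ v hv _).2 ⟨z, h5, rfl⟩, rfl⟩⟩
  · intro h
    refine Set.Subset.antisymm ?_ ?_ <;>
      refine seqs_sub (Inv := fun u => ∃ v, UW A v ∧ u = (wrap v).map c) ⟨[], uw_nil A, rfl⟩ ?_ <;>
      rintro _ u' ⟨v, hv, rfl⟩ s
    · obtain ⟨_, s', rfl⟩ := (step_code hc h₁ _ _).1 s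
      obtain ⟨z, h3, rfl⟩ := (step_wrap A _ v hv _).1 s'
      exact ⟨⟨z, uw_lang A hO h3, rfl⟩, (step_code hc h₂ _ _).2 ⟨_, (step_wrap A _ v hv _).2
        ⟨z, h3.or.elim (h _ _) id, rfl⟩, rfl⟩⟩
    · obtain ⟨_, s', rfl⟩ := (step_code hc h₂ _ _).1 s
      obtain ⟨z, h3, rfl⟩ := (step_wrap A _ v hv _).1 s'
      exact ⟨⟨z, uw_lang A hR h3, rfl⟩, (step_code hc h₁ _ _).2 ⟨_, (step_wrap A _ v hv _).2
        ⟨z, h3.mono A fun _ => Or.inr, rfl⟩, rfl⟩⟩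

end

theorem total {c : (ℕ ⊕ S) ⊕ Bool → ℕ} {R : List (ℕ ⊕ S) → Prop} {L : List (ℕ × List ℕ)}
    (h : ∀ a w, (a, w) ∈ L ↔ ∃ g w', rho A R g w' ∧ a = c g ∧ w = w'.map c)
    (hR : ∀ w, R w → UW A w) {p} (hp : R p) {f} (hf : A.F f) (a : ℕ)
    (ha : a ∈ (wrap []).map c ∨ ∃ r ∈ L, a ∈ r.2) : ∃ w, (a, w) ∈ L := by
  have key : ∀ g, (∀ l, g = inl l → U A l) → ∃ w, (c g, w) ∈ L := by
    intro g hg
    have : ∃ w, rho A R g w := by
      rcases g with (i | x) | _ | _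
      · exact ⟨[], hg _ rfl i rfl, rfl⟩
      · exact ⟨_, [], Or.inl rfl, rfl⟩
      · exact ⟨_, _, ⟨_, ⟨f, hf, rfl⟩, Or.inl rfl⟩, rfl⟩
      · exact ⟨_, p, hp, rfl⟩
    obtain ⟨w, hw⟩ := this
    exact ⟨_, (h _ _).2 ⟨g, w, hw, rfl, rfl⟩⟩
  rcases ha with ha | ⟨⟨a', w⟩, hr, ha⟩
  · obtain ⟨g, hg, rfl⟩ := mem_map.1 ha
    exact key g (by rintro l rfl; simp [wrap] at hg)
  · obtain ⟨g, w', h1, -, rfl⟩ := (h _ _).1 hr
    obtain ⟨g', hg, rfl⟩ := mem_map.1 ha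
    refine key g' ?_
    rintro l rfl
    rcases g with (i | x) | _ | _
    · simp [h1.2] at hg
    · obtain ⟨f, h2, rfl⟩ := h1
      exact uw_B A h2 l (by simpa using hg)
    · obtain ⟨f, h2, rfl⟩ := h1
      exact uw_Q A h2 l (by simpa using hg)
    · obtain ⟨f, h2, rfl⟩ := h1
      exact hR _ h2 l (by simpa using hg)

set_option linter.unusedSectionVars false

variable [Finite N] [Finite S]

theorem fin_U : {l | U A l}.Finite :=
  (((Set.finite_lt_nat A.K).image inl).union (Set.finite_range inr)).subset (by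
    rintro (i | x) h
    exacts [Or.inl ⟨i, h i rfl, rfl⟩, Or.inr ⟨x, rfl⟩])

theorem fin_cl {C : List (ℕ ⊕ S) → Prop} (h : {w | C w}.Finite) : {w | Cl A C w}.Finite := by
  refine (h.biUnion (t := fun v => {v, v.tail} ∪ Set.range fun b => inl (P A b - 1) :: v.tail)
    fun v _ => Set.toFinite _).subset ?_
  rintro w ⟨v, hv, h⟩
  refine Set.mem_biUnion hv ?_
  rcases h with rfl | rfl | ⟨b, rfl⟩ <;> simp

theorem fin_rho {R : List (ℕ ⊕ S) → Prop} (hR : {w | R w}.Finite) :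
    {z : ((ℕ ⊕ S) ⊕ Bool) × List ((ℕ ⊕ S) ⊕ Bool) | rho A R z.1 z.2}.Finite := by
  have hC : {w | C0 A w}.Finite := by
    refine (Set.finite_iUnion (f := fun z : N × Option S × N =>
      {fac A (P A z.1) z.2.1 (P A z.2.2), fac A (P A (A.sh z.1)) z.2.1 (P A z.2.2 - 1)} ∪
        (fun l => fac A (P A (A.sh z.1)) z.2.1 (P A z.2.2) ++ [l]) '' {l | U A l})
      fun z => (Set.toFinite _).union ((fin_U A).image _)).subset ?_
    rintro w ⟨a, o, b, -, h⟩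
    refine Set.mem_iUnion.2 ⟨(a, o, b), ?_⟩
    rcases h with rfl | ⟨-, rfl | ⟨l, h, -, rfl⟩⟩
    · simp
    · simp
    · exact Or.inr ⟨l, h, rfl⟩
  have hB : {w | B A w}.Finite := (fin_cl A hC).insert []
  have hQ : {w | Cl A (Q0 A) w}.Finite := fin_cl A ((Set.finite_range
    fun f => seg (P A f) A.K).subset (by rintro _ ⟨f, -, rfl⟩; exact ⟨f, rfl⟩))
  refine ((((hR.image fun p => (inr true, inr true :: p.map inl)).union
    (hQ.image fun k => (inr false, k.map inl ++ [inr false]))).union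
    ((Set.finite_lt_nat A.K).image fun i => (inl (inl i), []))).union
    (Set.finite_iUnion fun x : S => hB.image fun f => (inl (inr x), f.map inl))).subset ?_
  rintro ⟨(i | x) | _ | _, w⟩ h
  · obtain ⟨h, rfl⟩ := h; exact Or.inl (Or.inr ⟨i, h, rfl⟩)
  · obtain ⟨f, h, rfl⟩ := h; exact Or.inr (Set.mem_iUnion.2 ⟨x, f, h, rfl⟩)
  · obtain ⟨f, h, rfl⟩ := h; exact Or.inl (Or.inl (Or.inr ⟨f, h, rfl⟩))
  · obtain ⟨f, h, rfl⟩ := h; exact Or.inl (Or.inl (Or.inl ⟨f, h, rfl⟩))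

theorem fin_P2 : {w | P2 A (fun _ => False) w}.Finite := by
  refine (((Set.finite_range fun a => V A [] (P A a)).insert (V A [] (P A A.t0 - 1))).union
    ((fin_U A).image fun l => V A [] (P A A.t0) ++ [l])).subset ?_
  rintro _ (⟨a, -, rfl⟩ | rfl | ⟨l, h, -, rfl⟩ | ⟨x, h, -⟩)
  exacts [Or.inl (Or.inr ⟨a, rfl⟩), Or.inl (Or.inl rfl), Or.inr ⟨l, h, rfl⟩, h.elim]

theorem exists_rules (c : (ℕ ⊕ S) ⊕ Bool → ℕ) {R : List (ℕ ⊕ S) → Prop} (hR : {w | R w}.Finite) :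
    ∃ L : List (ℕ × List ℕ), ∀ a w, (a, w) ∈ L ↔
      ∃ g w', rho A R g w' ∧ a = c g ∧ w = w'.map c := by
  refine ⟨(fin_rho A hR).toFinset.toList.map fun z => (c z.1, z.2.map c), fun a w => ?_⟩
  simp only [mem_map, Finset.mem_toList, Set.Finite.mem_toFinset, Set.mem_ofPred_eq, Prod.exists,
    Prod.mk.injEq, eq_comm]

end Pool.Agent.H.MP_dd548e_lc
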