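import Mathlib
import Pool.Agent.H.MP_dd548e_lc.OL

set_option autoImplicit false

/-! Undecidability of the sequence equivalence of OL systems. -/

namespace Pool.Agent.H.MP_dd548e_lc

open List Sum Function Pool.Agent.Lib.helper21.While Pool.Agent.Lib.helper21.Mach
  Pool.Agent.Lib.helper21.Queue

section
variable {N S : Type} (A : Aut N (Option S)) (c : (ℕ ⊕ Option S) ⊕ Bool → ℕ)

def G (z : List (Option S)) (j : ℕ) : ℕ × List ℕ :=
  (c (inr true), (inr true :: (V A (replicate j none ++ z) (P A A.t0)).map inl).map c)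

theorem prim_G (z) : Primrec (G A c z) := by
  have : Primrec fun n : ℕ => (range n).flatMap fun _ =>
      ((seg 0 A.K ++ [inr none]).map inl).map c :=
    Primrec.list_flatMap Primrec.list_range (Primrec.const _).to₂
  refine ((Primrec.const (c (inr true))).pair (Primrec.list_cons.comp (Primrec.const (c (inr true)))
    (Primrec.list_append.comp this
      (Primrec.const (((V A z (P A A.t0)).map inl).map c))))).of_eq fun n => ?_
  simp [G, V, flatMap]

theorem prim_Gs (ys : List S) : Primrec fun j => ys.map fun y => G A c [some y] j := by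
  induction ys with
  | nil => exact Primrec.const []
  | cons y ys ih => exact Primrec.list_cons.comp (prim_G A c _) ih

def bad (ys : List S) (n : ℕ) : List (ℕ × List ℕ) :=
  ((range n).flatMap fun j => ys.map fun y => G A c [some y] j) ++ [G A c [none] n]

theorem prim_bad (ys : List S) : Primrec (bad A c ys) :=
  Primrec.list_append.comp (Primrec.list_flatMap Primrec.list_range
    ((prim_Gs A c ys).comp Primrec.snd).to₂)
    (Primrec.list_cons.comp (prim_G A c _) (Primrec.const []))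

end

theorem add_rules {N S : Type} (A : Aut N S) (c : (ℕ ⊕ S) ⊕ Bool → ℕ)
    {R R' R'' : List (ℕ ⊕ S) → Prop} {L L' : List (ℕ × List ℕ)}
    (h : ∀ a w, (a, w) ∈ L ↔ ∃ g w', rho A R g w' ∧ a = c g ∧ w = w'.map c)
    (h' : ∀ z, z ∈ L' ↔ ∃ p, R' p ∧ z = (c (inr true), (inr true :: p.map inl).map c))
    (hR : ∀ w, R'' w ↔ R w ∨ R' w) (a w) :
    (a, w) ∈ L ++ L' ↔ ∃ g w', rho A R'' g w' ∧ a = c g ∧ w = w'.map c := by
  rw [mem_append, h, h']
  constructor
  · rintro (⟨g, w', h1, h2⟩ | ⟨p, h1, h2⟩)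
    · refine ⟨g, w', ?_, h2⟩
      rcases g with (i | x) | _ | _
      exacts [h1, h1, h1, h1.imp fun p hp => ⟨(hR p).2 (Or.inl hp.1), hp.2⟩]
    · exact ⟨inr true, _, ⟨p, (hR p).2 (Or.inr h1), rfl⟩, Prod.mk.inj h2⟩
  · rintro ⟨g, w', h1, rfl, rfl⟩
    rcases g with (i | x) | _ | _
    · exact Or.inl ⟨inl (inl i), _, h1, rfl, rfl⟩
    · exact Or.inl ⟨inl (inr x), _, h1, rfl, rfl⟩
    · exact Or.inl ⟨inr false, _, h1, rfl, rfl⟩
    · obtain ⟨p, h1, rfl⟩ := h1
      exact ((hR p).1 h1).imp (fun h => ⟨inr true, _, ⟨p, h, rfl⟩, rfl, rfl⟩) fun h => ⟨p, h, rfl⟩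

def Tot (R : List (ℕ × List ℕ)) (ω : List ℕ) : Prop :=
  ∀ a : ℕ, (a ∈ ω ∨ ∃ p ∈ R, a ∈ p.2) → ∃ w : List ℕ, (a, w) ∈ R

theorem undec_ol : ∃ (R₁ R₂ : ℕ → List (ℕ × List ℕ)) (ω : List ℕ), Primrec R₁ ∧ Primrec R₂ ∧
    (∀ n, Tot (R₁ n) ω ∧ Tot (R₂ n) ω) ∧ ¬ ComputablePred fun n =>
      Seqs (Step fun a w => (a, w) ∈ R₁ n) ω = Seqs (Step fun a w => (a, w) ∈ R₂ n) ω := by
  obtain ⟨Q, _, M, q₀, hM⟩ := exists_cm0
  have : Finite (W Q) := Finite.of_surjective
    (fun z : (Bool ⊕ Option Q × Bool) ⊕ Q ⊕ Q => (match z with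
      | .inl (.inl true) => .t
      | .inl (.inl false) => .s
      | .inl (.inr y) => .ctl y.1 y.2
      | .inr (.inl q) => .ca q
      | .inr (.inr q) => .cb q : W Q)) (by
      rintro (_ | _ | ⟨o, l⟩ | q | q)
      exacts [⟨.inl (.inl true), rfl⟩, ⟨.inl (.inl false), rfl⟩, ⟨.inl (.inr (o, l)), rfl⟩,
        ⟨.inr (.inl q), rfl⟩, ⟨.inr (.inr q), rfl⟩])
  obtain ⟨idx, hi⟩ := exists_injective_nat (W Q)
  obtain ⟨K, hK⟩ := (Set.finite_range idx).bddAbove
  have hL : ∀ p, idx p ≤ K := fun p => hK ⟨p, rfl⟩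
  have iff := lang_iff M q₀ idx hi K hL
  have e : (aut M q₀ idx hi K hL).E (.t, 1) (some none) (.t, 0) := ⟨rfl, rfl, rfl⟩
  have hf : (aut M q₀ idx hi K hL).F (.t, 0) := ⟨rfl, Or.inl rfl⟩
  rw [show ((W.t, 0) : W Q × Fin 3) = (aut M q₀ idx hi K hL).t0 from rfl] at iff
  generalize aut M q₀ idx hi K hL = A at iff e hf
  obtain ⟨c, hc⟩ := exists_injective_nat ((ℕ ⊕ Sg Q) ⊕ Bool)
  obtain ⟨L₂, h₂⟩ := exists_rules A c (fin_P2 A)
  obtain ⟨L₁, h₁⟩ := exists_rules A c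
    (R := fun w => w = V A [] (P A A.t0) ∨ P2 A (fun _ => False) w) ((fin_P2 A).insert _)
  obtain ⟨ys, hy⟩ : ∃ ys : List (Q × Bool), ∀ y, y ∈ ys := by
    have := Fintype.ofFinite (Q × Bool)
    exact ⟨Finset.univ.toList, by simp⟩
  have hb : ∀ n z, z ∈ bad A c ys n ↔ ∃ p, (∃ x, Bad n x ∧ p = V A x (P A A.t0)) ∧
      z = (c (inr true), (inr true :: p.map inl).map c) := by
    intro n z
    simp only [bad, mem_append, mem_flatMap, mem_range, mem_map, mem_singleton]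
    constructor
    · rintro (⟨j, hj, y, -, rfl⟩ | rfl)
      · exact ⟨_, ⟨_, Or.inl ⟨j, hj, y, rfl⟩, rfl⟩, rfl⟩
      · exact ⟨_, ⟨_, Or.inr replicate_succ'.symm, rfl⟩, rfl⟩
    · rintro ⟨_, ⟨_, ⟨j, hj, y, rfl⟩ | rfl, rfl⟩, rfl⟩
      · exact Or.inl ⟨j, hj, y, hy y, rfl⟩
      · exact Or.inr (by rw [replicate_succ']; rfl)
  have g₂ := fun n => add_rules A c h₂ (hb n) (R'' := P2 A (Bad n)) fun w => by
    simp only [P2, false_and, exists_false, or_false, or_assoc]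
  have g₁ := fun n => add_rules A c h₁ (hb n)
    (R'' := fun w => w = V A [] (P A A.t0) ∨ P2 A (Bad n) w) fun w => by
    simp only [P2, false_and, exists_false, or_false, or_assoc]
  have u : ∀ w, w = V A [] (P A A.t0) → UW A w := by
    rintro _ rfl
    exact uw_V A _ (by have := P_lt A A.t0; omega)
  have hp : ∀ n, P2 A (Bad n) (V A [] (P A (A.sh A.t0))) := fun n => Or.inl ⟨_, Or.inr rfl, rfl⟩
  refine ⟨fun n => L₁ ++ bad A c ys n, fun n => L₂ ++ bad A c ys n, (wrap []).map c,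
    Primrec.list_append.comp (Primrec.const _) (prim_bad A c ys),
    Primrec.list_append.comp (Primrec.const _) (prim_bad A c ys), fun n => ⟨total A (g₁ n)
      (fun w h => h.elim (u w) (uw_P2 A)) (Or.inr (hp n)) hf,
      total A (g₂ n) (fun w => uw_P2 A) (hp n) hf⟩, fun h => hM (h.not.of_eq fun n => ?_)⟩
  rw [seqs_iff A hc (g₁ n) (g₂ n) (fun w => uw_P2 A) u (hp n) (cnt_V A _ _)
    (p' := V A (replicate (n + 1) none) (P A A.t0))
    (Or.inr (Or.inr (Or.inr ⟨_, Or.inr rfl, rfl⟩))) (by simp [cnt_V]) e hf, iff, not_not]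

end Pool.Agent.H.MP_dd548e_lc
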